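import Pool.Agent.Run7.h758.PX.Main
import Pool.Agent.V11295.ProgDim

/-!
# The bound for families of progressions which join two sets
-/

set_option autoImplicit false
set_option linter.unusedSectionVars false

open Finset
open scoped Classical

namespace Pool.Agent.Run7.h758.PX

/-- `2 e / (1 + e)` -/
noncomputable def kap0 : ℝ := 2 * Real.exp 1 / (1 + Real.exp 1)

lemma kap0_pos : 0 < kap0 := by
  unfold kap0
  positivity

theorem abs_bound {D : Type} [Fintype D] [Nonempty D] (x y : D → ℚ)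
    (hinj : Function.Injective fun d => x d - y d) (S : Finset ℚ) (hS : ∀ d e, x d + y e ∈ S) :
    (Fintype.card D : ℝ) ≤ (S.card : ℝ) ^ kap0 := by
  have hSpos : (0 : ℝ) < S.card := by
    have : S.Nonempty := ⟨_, hS (Classical.arbitrary D) (Classical.arbitrary D)⟩
    exact_mod_cast Finset.card_pos.2 this
  have hDpos : (0 : ℝ) < Fintype.card D := by exact_mod_cast Fintype.card_pos
  have hlog : 0 ≤ Real.log S.card := Real.log_natCast_nonneg _
  have hm : ∀ m : ℕ, Real.log (Fintype.card D) ≤ kap m * Real.log S.card := by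
    intro m
    have h1 := core (N := 2 * m + 3) x y (fun _ => 1) hinj (fun _ => one_ne_zero) m le_rfl
      (Real.log S.card) (fun i j _ => ⟨S, fun d e => by simpa using hS d e, le_rfl⟩)
    have hT := T_bounds m 1
    have h3 : (3 + T m 1) * Real.log (Fintype.card D) ≤
        (3 + T m 1) * (kap m * Real.log S.card) := by
      have h4 := mul_le_mul_of_nonneg_right (kap_spec m) hlog
      linarith
    exact le_of_mul_le_mul_left h3 (by linarith [hT.1])
  rw [← Real.log_le_log_iff hDpos (by positivity), Real.log_rpow hSpos]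
  apply le_of_forall_pos_le_add
  intro ε hε
  obtain ⟨m, hm1⟩ := exists_nat_gt (Real.log S.card / ε)
  refine (hm m).trans ?_
  unfold kap kap0
  rw [add_mul]
  have h2 : 1 / (((m : ℝ) + 1) * ((m : ℝ) + 2)) * Real.log S.card ≤ ε := by
    rw [div_mul_eq_mul_div, one_mul, div_le_iff₀ (by positivity)]
    rw [div_lt_iff₀ hε] at hm1
    have hm0 : (0 : ℝ) ≤ m := Nat.cast_nonneg m
    have h3 : (m : ℝ) * ε ≤ ε * (((m : ℝ) + 1) * ((m : ℝ) + 2)) := by
      have : (m : ℝ) ≤ ((m : ℝ) + 1) * ((m : ℝ) + 2) := by nlinarith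
      nlinarith
    linarith
  linarith

theorem vec_bound {n : ℕ} {D : Type} [Fintype D] [Nonempty D] (a b : D → Fin n → ℤ)
    (hinj : ∀ d e, a d - b d = a e - b e → d = e) (S : Finset (Fin n → ℤ))
    (hS : ∀ d e, a d + b e ∈ S) : (Fintype.card D : ℝ) ≤ (S.card : ℝ) ^ kap0 := by
  obtain ⟨M, hM⟩ := Pool.Agent.W46.KK.exists_hom (Finset.univ.image fun d => a d - b d)
  set φ : (Fin n → ℤ) → ℚ := fun z => ((∑ i, z i * M ^ (i : ℕ) : ℤ) : ℚ) with hφ
  have hsub : ∀ z w, φ z - φ w = φ (z - w) := by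
    intro z w
    simp only [hφ]
    rw [← Int.cast_sub, ← Finset.sum_sub_distrib]
    congr 1
    exact Finset.sum_congr rfl fun i _ => by rw [Pi.sub_apply]; ring
  have hadd : ∀ z w, φ z + φ w = φ (z + w) := by
    intro z w
    simp only [hφ]
    rw [← Int.cast_add, ← Finset.sum_add_distrib]
    congr 1
    exact Finset.sum_congr rfl fun i _ => by rw [Pi.add_apply]; ring
  have h1 := abs_bound (fun d => φ (a d)) (fun d => φ (b d)) (by
      intro d e h
      dsimp only at h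
      rw [hsub, hsub] at h
      simp only [hφ] at h
      have h2 := hM _ (Finset.mem_image_of_mem _ (Finset.mem_univ d)) _
        (Finset.mem_image_of_mem _ (Finset.mem_univ e)) (by exact_mod_cast h)
      exact hinj d e h2)
    (S.image φ) (by
      intro d e
      rw [hadd]
      exact Finset.mem_image_of_mem _ (hS d e))
  refine h1.trans ?_
  apply Real.rpow_le_rpow (Nat.cast_nonneg _) _ kap0_pos.le
  exact_mod_cast Finset.card_image_le

/-- covers of the midpoints against separated sets of differences -/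
theorem prod_any {n : ℕ} (t : ℝ) (ht : 1 ≤ t) (X Z B : Set (EuclideanSpace ℝ (Fin n)))
    (h : ∀ x ∈ X, ∀ z ∈ Z, (1 / 2 : ℝ) • (x + z) ∈ B) {δ : ℝ} (hδ : 0 < δ) (ι : Type) [Fintype ι]
    (U : ι → Set (EuclideanSpace ℝ (Fin n)))
    (hU : ∀ i, ∀ x ∈ U i, ∀ y ∈ U i, dist x y ≤ δ) (hcov : B ⊆ ⋃ i, U i)
    (Q : Finset (EuclideanSpace ℝ (Fin n))) (hQ : ∀ r ∈ Q, ∃ x ∈ X, x + t • r ∈ Z)
    (hsep : ∀ x ∈ Q, ∀ y ∈ Q, x ≠ y → ∃ i, 2 * δ ≤ |x i - y i|) :
    (Q.card : ℝ) ≤ ((9 : ℝ) ^ n * (Fintype.card ι : ℝ)) ^ kap0 := by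
  rcases Q.eq_empty_or_nonempty with h0 | h0
  · rw [h0, Finset.card_empty, Nat.cast_zero]
    positivity
  have : Nonempty Q := h0.to_subtype
  have hQ' : ∀ r : Q, ∃ x ∈ X, x + t • (r : EuclideanSpace ℝ (Fin n)) ∈ Z := fun r => hQ r r.2
  choose p hpX hpZ using hQ'
  have hmid : ∀ w : Q × Q, ∃ i, (1 / 2 : ℝ) •
      (p w.2 + (p w.1 + t • (w.1 : EuclideanSpace ℝ (Fin n)))) ∈ U i := by
    intro w
    have h1 := hcov (h (p w.2) (hpX w.2) _ (hpZ w.1))
    rw [Set.mem_iUnion] at h1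
    exact h1
  choose f hf using hmid
  set a : Q → Fin n → ℤ := fun r i =>
    ⌊(p r + t • (r : EuclideanSpace ℝ (Fin n))) i / δ⌋ with ha
  set b : Q → Fin n → ℤ := fun r i => ⌊(p r) i / δ⌋ with hb
  have hinj : ∀ d e, a d - b d = a e - b e → d = e := by
    intro d e hde
    by_contra hne
    obtain ⟨i, hi⟩ := hsep d d.2 e e.2 (fun h' => hne (Subtype.ext h'))
    have h1 := congrFun hde i
    simp only [Pi.sub_apply, ha, hb] at h1
    have g1 := Int.floor_le ((p d + t • (d : EuclideanSpace ℝ (Fin n))) i / δ)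
    have g2 := Int.lt_floor_add_one ((p d + t • (d : EuclideanSpace ℝ (Fin n))) i / δ)
    have g3 := Int.floor_le ((p d) i / δ)
    have g4 := Int.lt_floor_add_one ((p d) i / δ)
    have g5 := Int.floor_le ((p e + t • (e : EuclideanSpace ℝ (Fin n))) i / δ)
    have g6 := Int.lt_floor_add_one ((p e + t • (e : EuclideanSpace ℝ (Fin n))) i / δ)
    have g7 := Int.floor_le ((p e) i / δ)
    have g8 := Int.lt_floor_add_one ((p e) i / δ)
    have h1r : ((⌊(p d + t • (d : EuclideanSpace ℝ (Fin n))) i / δ⌋ : ℤ) : ℝ) -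
        ((⌊(p d) i / δ⌋ : ℤ) : ℝ) =
        ((⌊(p e + t • (e : EuclideanSpace ℝ (Fin n))) i / δ⌋ : ℤ) : ℝ) -
        ((⌊(p e) i / δ⌋ : ℤ) : ℝ) := by
      exact_mod_cast h1
    have e1 : (p d + t • (d : EuclideanSpace ℝ (Fin n))) i / δ =
        (p d) i / δ + t * ((d : EuclideanSpace ℝ (Fin n)) i / δ) := by
      rw [PiLp.add_apply, PiLp.smul_apply, smul_eq_mul]
      ring
    have e2 : (p e + t • (e : EuclideanSpace ℝ (Fin n))) i / δ =
        (p e) i / δ + t * ((e : EuclideanSpace ℝ (Fin n)) i / δ) := by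
      rw [PiLp.add_apply, PiLp.smul_apply, smul_eq_mul]
      ring
    rw [e1] at g1 g2 h1r
    rw [e2] at g5 g6 h1r
    set u := ((d : EuclideanSpace ℝ (Fin n)) i) / δ with hu
    set v := ((e : EuclideanSpace ℝ (Fin n)) i) / δ with hv
    have h2 : |t * u - t * v| < 2 := by
      rw [abs_lt]
      constructor <;> linarith
    have h3 : 2 ≤ |u - v| := by
      have : u - v = ((d : EuclideanSpace ℝ (Fin n)) i - (e : EuclideanSpace ℝ (Fin n)) i) / δ := by
        rw [hu, hv]
        ring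
      rw [this, abs_div, abs_of_pos hδ, le_div_iff₀ hδ]
      exact hi
    have h4 : |t * u - t * v| = t * |u - v| := by
      rw [← mul_sub, abs_mul, abs_of_nonneg (by linarith)]
    rw [h4] at h2
    nlinarith
  set S : Finset (Fin n → ℤ) := Finset.univ.image fun w : Q × Q => a w.1 + b w.2 with hS
  have h1 := vec_bound a b hinj S (fun d e => by
    rw [hS, Finset.mem_image]
    exact ⟨(d, e), Finset.mem_univ _, rfl⟩)
  rw [Fintype.card_coe] at h1
  refine h1.trans ?_
  apply Real.rpow_le_rpow (Nat.cast_nonneg _) _ kap0_pos.le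
  -- counting the sums
  have hg : ∀ i : ι, ∃ w : Q × Q, ∀ w' : Q × Q, f w' = i → f w = i := by
    intro i
    by_cases hi : ∃ w, f w = i
    · obtain ⟨w, hw⟩ := hi
      exact ⟨w, fun _ _ => hw⟩
    · push Not at hi
      exact ⟨Classical.arbitrary _, fun w' hw' => absurd hw' (hi w')⟩
  choose g hg using hg
  have hsub : S ⊆ Finset.univ.biUnion fun i : ι =>
      (Fintype.piFinset fun _ : Fin n => Finset.Icc (-4 : ℤ) 4).image
        fun v => a (g i).1 + b (g i).2 + v := by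
    intro s hs
    rw [hS, Finset.mem_image] at hs
    obtain ⟨w, -, rfl⟩ := hs
    rw [Finset.mem_biUnion]
    refine ⟨f w, Finset.mem_univ _, ?_⟩
    rw [Finset.mem_image]
    refine ⟨a w.1 + b w.2 - (a (g (f w)).1 + b (g (f w)).2), ?_, by abel⟩
    rw [Fintype.mem_piFinset]
    intro l
    have hfg := hg (f w) w rfl
    set w0 := g (f w) with hw0
    have m1 := hf w
    have m2 := hf w0
    rw [hfg] at m2
    have m3 := hU (f w) _ m1 _ m2
    have m4 : |((1 / 2 : ℝ) • (p w.2 + (p w.1 + t • (w.1 : EuclideanSpace ℝ (Fin n))))) l -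
        ((1 / 2 : ℝ) • (p w0.2 + (p w0.1 + t • (w0.1 : EuclideanSpace ℝ (Fin n))))) l| ≤ δ := by
      refine le_trans ?_ m3
      rw [EuclideanSpace.dist_eq, ← Real.dist_eq]
      apply Real.le_sqrt_of_sq_le
      exact Finset.single_le_sum (f := fun i => dist
        (((1 / 2 : ℝ) • (p w.2 + (p w.1 + t • (w.1 : EuclideanSpace ℝ (Fin n))))) i)
        (((1 / 2 : ℝ) • (p w0.2 + (p w0.1 + t • (w0.1 : EuclideanSpace ℝ (Fin n))))) i) ^ 2)
        (fun _ _ => sq_nonneg _) (Finset.mem_univ l)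
    have e1 : ∀ w : Q × Q,
        ((1 / 2 : ℝ) • (p w.2 + (p w.1 + t • (w.1 : EuclideanSpace ℝ (Fin n))))) l =
        (1 / 2) * (δ * ((p w.2) l / δ +
          (p w.1 + t • (w.1 : EuclideanSpace ℝ (Fin n))) l / δ)) := by
      intro w
      rw [PiLp.smul_apply, smul_eq_mul, PiLp.add_apply]
      field_simp
    rw [e1, e1, ← mul_sub, ← mul_sub, ← mul_assoc, abs_mul, abs_of_pos (by positivity :
      (0 : ℝ) < 1 / 2 * δ)] at m4
    have m5 : |((p w.2) l / δ + (p w.1 + t • (w.1 : EuclideanSpace ℝ (Fin n))) l / δ) -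
        ((p w0.2) l / δ + (p w0.1 + t • (w0.1 : EuclideanSpace ℝ (Fin n))) l / δ)| ≤ 2 := by
      by_contra hc
      push Not at hc
      nlinarith
    rw [abs_le] at m5
    have g1 := Int.floor_le ((p w.1 + t • (w.1 : EuclideanSpace ℝ (Fin n))) l / δ)
    have g2 := Int.lt_floor_add_one ((p w.1 + t • (w.1 : EuclideanSpace ℝ (Fin n))) l / δ)
    have g3 := Int.floor_le ((p w.2) l / δ)
    have g4 := Int.lt_floor_add_one ((p w.2) l / δ)
    have g5 := Int.floor_le ((p w0.1 + t • (w0.1 : EuclideanSpace ℝ (Fin n))) l / δ)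
    have g6 := Int.lt_floor_add_one ((p w0.1 + t • (w0.1 : EuclideanSpace ℝ (Fin n))) l / δ)
    have g7 := Int.floor_le ((p w0.2) l / δ)
    have g8 := Int.lt_floor_add_one ((p w0.2) l / δ)
    have k1 : (a w.1 + b w.2 - (a w0.1 + b w0.2)) l =
        ⌊(p w.1 + t • (w.1 : EuclideanSpace ℝ (Fin n))) l / δ⌋ + ⌊(p w.2) l / δ⌋ -
        (⌊(p w0.1 + t • (w0.1 : EuclideanSpace ℝ (Fin n))) l / δ⌋ + ⌊(p w0.2) l / δ⌋) := rfl
    rw [k1, Finset.mem_Icc]
    constructor
    · have : (-4 : ℝ) ≤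
          ((⌊(p w.1 + t • (w.1 : EuclideanSpace ℝ (Fin n))) l / δ⌋ + ⌊(p w.2) l / δ⌋ -
          (⌊(p w0.1 + t • (w0.1 : EuclideanSpace ℝ (Fin n))) l / δ⌋ + ⌊(p w0.2) l / δ⌋) : ℤ) : ℝ) := by
        push_cast
        linarith [m5.1]
      exact_mod_cast this
    · have : ((⌊(p w.1 + t • (w.1 : EuclideanSpace ℝ (Fin n))) l / δ⌋ + ⌊(p w.2) l / δ⌋ -
          (⌊(p w0.1 + t • (w0.1 : EuclideanSpace ℝ (Fin n))) l / δ⌋ + ⌊(p w0.2) l / δ⌋) : ℤ) : ℝ) ≤
          (4 : ℝ) := by
        push_cast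
        linarith [m5.2]
      exact_mod_cast this
  have hcard : S.card ≤ Fintype.card ι * 9 ^ n := by
    refine (Finset.card_le_card hsub).trans ?_
    refine (Finset.card_biUnion_le).trans ?_
    refine (Finset.sum_le_card_nsmul _ _ (9 ^ n) ?_).trans ?_
    · intro i _
      refine Finset.card_image_le.trans ?_
      rw [Fintype.card_piFinset]
      simp
    · rw [Finset.card_univ, smul_eq_mul]
  have : (S.card : ℝ) ≤ ((Fintype.card ι * 9 ^ n : ℕ) : ℝ) := by exact_mod_cast hcard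
  push_cast at this
  linarith

end Pool.Agent.Run7.h758.PX
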