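import Pool.Agent.W904.AK.Final

/-!
# Entropies of sums of dilates of independent copies

`D` is a finite type with two maps `x y : D → ℚ` such that `x - y` is injective. On `Fin N → D` with
the uniform law, `F ρ` is the sum of `c i * x (ω i)` over the `i` of role `1` and of `c i * y (ω i)`
over the `i` of role `2`; `hh ρ` is its entropy.
-/

set_option autoImplicit false
set_option linter.unusedSectionVars false

open Finset
open scoped Classical

namespace Pool.Agent.Run7.h758.PX

open Pool.Agent.W904.AK

section Indep

variable {D : Type} [Fintype D] [Nonempty D] {N : ℕ}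

lemma prodLaw_apply {Ω₁ Ω₂ : Type*} [Fintype Ω₁] [Fintype Ω₂] {p : Ω₁ → ℝ} {q : Ω₂ → ℝ}
    (hp : IsLaw p) (z : Ω₁ × Ω₂) : prodLaw p q z = p z.1 * q z.2 := by
  unfold prodLaw glue
  rw [if_pos rfl, im_unit hp, div_one]

lemma im_update (i : Fin N) :
    im (prodLaw (unif D) (unif (Fin N → D))) (fun z => Function.update z.2 i z.1) =
      unif (Fin N → D) := by
  funext a
  have hD : (Fintype.card D : ℝ) ≠ 0 := by exact_mod_cast Fintype.card_ne_zero
  have hΩ : (Fintype.card (Fin N → D) : ℝ) ≠ 0 := by exact_mod_cast Fintype.card_ne_zero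
  unfold im
  have h1 : ∀ z : D × (Fin N → D), prodLaw (unif D) (unif (Fin N → D)) z =
      1 / (Fintype.card D : ℝ) * (1 / (Fintype.card (Fin N → D) : ℝ)) := by
    intro z
    rw [prodLaw_apply (unif_law D)]
    rfl
  simp only [h1]
  rw [← Finset.sum_filter, Finset.sum_const, nsmul_eq_mul]
  have h2 : (Finset.univ.filter (fun z : D × (Fin N → D) => Function.update z.2 i z.1 = a)) =
      Finset.univ.image (fun d : D => (a i, Function.update a i d)) := by
    ext z
    simp only [Finset.mem_filter, Finset.mem_univ, true_and, Finset.mem_image]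
    constructor
    · intro h
      refine ⟨z.2 i, ?_⟩
      rw [← h]
      apply Prod.ext
      · simp
      · simp
    · rintro ⟨d, rfl⟩
      simp
  rw [h2, Finset.card_image_of_injective, Finset.card_univ]
  · unfold unif
    field_simp
  · intro d d' h
    have := congrFun (congrArg Prod.snd h) i
    simpa using this

theorem H_indep (i : Fin N) {α β : Type*} (u : D → α) (v : (Fin N → D) → β)
    (hv : ∀ ω d, v (Function.update ω i d) = v ω) :
    H (unif (Fin N → D)) (fun ω => (u (ω i), v ω)) =
      H (unif (Fin N → D)) (fun ω => u (ω i)) + H (unif (Fin N → D)) v := by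
  have h1 := H_map (im_update (D := D) i) (fun ω => (u (ω i), v ω))
  have h2 := H_map (im_update (D := D) i) (fun ω => u (ω i))
  simp only [Function.update_self, hv] at h1 h2
  rw [H_prod (unif_law D) (unif_law (Fin N → D)) u v] at h1
  have h3 : H (prodLaw (unif D) (unif (Fin N → D))) (fun z => u z.1) = H (unif D) u := by
    unfold prodLaw
    exact H_glue_fst (unif_law D) (prod_ok (unif_law D) (unif_law (Fin N → D))) u
  rw [h3] at h2
  rw [← h1, ← h2]

theorem H_coord (i : Fin N) :
    H (unif (Fin N → D)) (fun ω => ω i) = Real.log (Fintype.card D) := by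
  have h2 := H_map (im_update (D := D) i) (fun ω => ω i)
  simp only [Function.update_self] at h2
  have h3 : H (prodLaw (unif D) (unif (Fin N → D))) (fun z => z.1) = H (unif D) id := by
    unfold prodLaw
    exact H_glue_fst (unif_law D) (prod_ok (unif_law D) (unif_law (Fin N → D))) id
  rw [← h2, h3, H_unif D Function.injective_id]

end Indep

/-- what a copy of role `k` contributes -/
def val {D : Type} (x y : D → ℚ) (k : Fin 3) (d : D) : ℚ :=
  if k = 1 then x d else if k = 2 then y d else 0

/-- the sum of dilates with roles `ρ` -/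
def F {D : Type} {N : ℕ} (x y : D → ℚ) (c : Fin N → ℚ) (ρ : Fin N → Fin 3) (ω : Fin N → D) : ℚ :=
  ∑ i, c i * val x y (ρ i) (ω i)

section Forms

variable {D : Type} [Fintype D] [Nonempty D] {N : ℕ} (x y : D → ℚ) (c : Fin N → ℚ)

lemma F_role (ρ : Fin N → Fin 3) (i : Fin N) (hi : ρ i = 0) (a : Fin 3) (ω : Fin N → D) :
    F x y c (Function.update ρ i a) ω = F x y c ρ ω + c i * val x y a (ω i) := by
  unfold F
  have h1 : ∀ j, c j * val x y (Function.update ρ i a j) (ω j) =
      c j * val x y (ρ j) (ω j) + (if j = i then c i * val x y a (ω i) else 0) := by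
    intro j
    by_cases hj : j = i
    · subst hj
      rw [Function.update_self, hi]
      simp [val]
    · rw [Function.update_of_ne hj, if_neg hj, add_zero]
  rw [Finset.sum_congr rfl fun j _ => h1 j, Finset.sum_add_distrib]
  simp

lemma F_omega (ρ : Fin N → Fin 3) (i : Fin N) (hi : ρ i = 0) (ω : Fin N → D) (d : D) :
    F x y c ρ (Function.update ω i d) = F x y c ρ ω := by
  unfold F
  refine Finset.sum_congr rfl fun j _ => ?_
  by_cases hj : j = i
  · subst hj
    rw [hi]
    simp [val]
  · rw [Function.update_of_ne hj]

/-- the entropy of the sum of dilates with roles `ρ` -/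
noncomputable def hh (ρ : Fin N → Fin 3) : ℝ := H (unif (Fin N → D)) (F x y c ρ)

theorem ruzsa (hinj : Function.Injective fun d => x d - y d) (hc : ∀ i, c i ≠ 0)
    (ρ : Fin N → Fin 3) (i : Fin N) (hi : ρ i = 0) :
    Real.log (Fintype.card D) + hh x y c ρ ≤
      hh x y c (Function.update ρ i 1) + hh x y c (Function.update ρ i 2) := by
  have h1 := subadd (unif_law (Fin N → D)) (f := F x y c (Function.update ρ i 1))
    (g := F x y c (Function.update ρ i 2)) (k := fun ω => (ω i, F x y c ρ ω)) (by
      intro ω ω' _ _ h
      have e1 := congrArg Prod.fst h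
      have e2 := congrArg Prod.snd h
      dsimp only at e1 e2
      rw [F_role x y c ρ i hi, F_role x y c ρ i hi] at e1 e2
      have v1 : ∀ d, val x y 1 d = x d := fun d => by simp [val]
      have v2 : ∀ d, val x y 2 d = y d := fun d => by simp [val]
      rw [v1, v1] at e1
      rw [v2, v2] at e2
      have e3 : c i * (x (ω i) - y (ω i)) = c i * (x (ω' i) - y (ω' i)) := by linarith
      have e4 : ω i = ω' i := hinj (mul_left_cancel₀ (hc i) e3)
      apply Prod.ext e4
      dsimp only
      rw [e4] at e1
      linarith)
  have h2 := H_indep i (fun d : D => d) (F x y c ρ) (F_omega x y c ρ i hi)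
  rw [H_coord] at h2
  unfold hh
  linarith

theorem submodular (ρ : Fin N → Fin 3) (i j : Fin N) (hij : i ≠ j) (hi : ρ i = 0) (hj : ρ j = 0)
    (a b : Fin 3) :
    hh x y c (Function.update (Function.update ρ i a) j b) + hh x y c ρ ≤
      hh x y c (Function.update ρ i a) + hh x y c (Function.update ρ j b) := by
  have hj' : (Function.update ρ i a) j = 0 := by rw [Function.update_of_ne hij.symm, hj]
  have hi' : (Function.update ρ j b) i = 0 := by rw [Function.update_of_ne hij, hi]
  set A : D → ℚ := fun d => c i * val x y a d with hA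
  set C : D → ℚ := fun d => c j * val x y b d with hC
  have h1 := submod' (unif_law (Fin N → D))
    (f := fun ω => (A (ω i), F x y c (Function.update ρ j b) ω))
    (g := fun ω => (C (ω j), F x y c (Function.update ρ i a) ω))
    (h := F x y c (Function.update (Function.update ρ i a) j b))
    (k := fun ω => (A (ω i), (C (ω j), F x y c ρ ω)))
    (by
      intro ω ω' _ _ h
      have e1 := congrArg Prod.fst h
      have e2 := congrArg Prod.snd h
      dsimp only at e1 e2
      rw [F_role x y c ρ j hj, F_role x y c ρ j hj] at e2
      rw [F_role x y c _ j hj', F_role x y c _ j hj', F_role x y c ρ i hi, F_role x y c ρ i hi]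
      simp only [hA] at e1
      linarith)
    (by
      intro ω ω' _ _ h
      have e1 := congrArg Prod.fst h
      have e2 := congrArg Prod.snd h
      dsimp only at e1 e2
      rw [F_role x y c _ j hj', F_role x y c _ j hj']
      simp only [hC] at e1
      linarith)
    (by
      intro ω ω' _ _ h
      have e1 := congrArg Prod.fst h
      have e2 := congrArg Prod.snd h
      have e3 := congrArg Prod.fst e1
      have e4 := congrArg Prod.snd e1
      have e5 := congrArg Prod.fst e2
      dsimp only at e3 e4 e5
      rw [F_role x y c ρ j hj, F_role x y c ρ j hj] at e4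
      apply Prod.ext e3
      apply Prod.ext e5
      dsimp only
      simp only [hC] at e5
      linarith)
  have k1 := H_indep i A (F x y c (Function.update ρ j b)) (F_omega x y c _ i hi')
  have k2 := H_indep j C (F x y c (Function.update ρ i a)) (F_omega x y c _ j hj')
  have k3 := H_indep i A (fun ω => (C (ω j), F x y c ρ ω)) (by
    intro ω d
    rw [F_omega x y c ρ i hi, Function.update_of_ne hij.symm])
  have k4 := H_indep j C (F x y c ρ) (F_omega x y c ρ j hj)
  unfold hh
  linarith

theorem monotone (ρ : Fin N → Fin 3) (i : Fin N) (hi : ρ i = 0) (a : Fin 3) :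
    hh x y c ρ ≤ hh x y c (Function.update ρ i a) := by
  set A : D → ℚ := fun d => c i * val x y a d with hA
  have h1 := subadd (unif_law (Fin N → D)) (f := F x y c (Function.update ρ i a))
    (g := fun ω => A (ω i)) (k := fun ω => (A (ω i), F x y c ρ ω)) (by
      intro ω ω' _ _ h
      have e1 := congrArg Prod.fst h
      have e2 := congrArg Prod.snd h
      dsimp only at e1 e2
      rw [F_role x y c ρ i hi, F_role x y c ρ i hi] at e1
      apply Prod.ext e2
      dsimp only
      simp only [hA] at e2
      linarith)
  have h2 := H_indep i A (F x y c ρ) (F_omega x y c ρ i hi)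
  unfold hh
  linarith

end Forms

end Pool.Agent.Run7.h758.PX
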