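import Pool.Agent.Run7.h758.PX.Seq

/-!
# The limit of the factors `T m 1` is at most `e - 2`
-/

set_option autoImplicit false

open Finset

namespace Pool.Agent.Run7.h758.PX

/-- the scaled remainder of the exponential series -/
noncomputable def r (q : ℕ) : ℝ :=
  (q.factorial : ℝ) * (Real.exp 1 - ∑ j ∈ range (q + 1), 1 / (j.factorial : ℝ))

/-- `1 - q r_q` -/
noncomputable def d (q : ℕ) : ℝ := 1 - q * r q

lemma r_succ (q : ℕ) : r (q + 1) = ((q : ℝ) + 1) * r q - 1 := by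
  have hf : ((q + 1).factorial : ℝ) ≠ 0 := by positivity
  unfold r
  rw [Finset.sum_range_succ _ (q + 1)]
  have h1 : ((q + 1).factorial : ℝ) * (1 / ((q + 1).factorial : ℝ)) = 1 := by
    field_simp
  have h2 : ((q + 1).factorial : ℝ) = ((q : ℝ) + 1) * (q.factorial : ℝ) := by
    rw [Nat.factorial_succ]
    push_cast
    ring
  calc ((q + 1).factorial : ℝ) * (Real.exp 1 - (∑ j ∈ range (q + 1), 1 / (j.factorial : ℝ) +
        1 / ((q + 1).factorial : ℝ)))
      = ((q + 1).factorial : ℝ) * (Real.exp 1 - ∑ j ∈ range (q + 1), 1 / (j.factorial : ℝ)) -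
        ((q + 1).factorial : ℝ) * (1 / ((q + 1).factorial : ℝ)) := by ring
    _ = _ := by
      rw [h1, h2]
      ring

lemma r_zero : r 0 = Real.exp 1 - 1 := by
  simp [r]

lemma r_upper (q : ℕ) : r q ≤ ((q : ℝ) + 2) / ((q : ℝ) + 1) ^ 2 := by
  have h := Real.exp_bound' (x := 1) (by norm_num) le_rfl (n := q + 1) (by omega)
  have hf : (0 : ℝ) < (q.factorial : ℝ) := by positivity
  simp only [one_pow, one_mul] at h
  have h3 : Real.exp 1 - ∑ j ∈ range (q + 1), 1 / (j.factorial : ℝ) ≤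
      (((q + 1 : ℕ) : ℝ) + 1) / (((q + 1).factorial : ℝ) * ((q + 1 : ℕ) : ℝ)) := by
    linarith
  have h4 := mul_le_mul_of_nonneg_left h3 hf.le
  unfold r
  refine h4.trans (le_of_eq ?_)
  rw [Nat.factorial_succ]
  push_cast
  field_simp
  ring

lemma d_lower (q : ℕ) : ((q : ℝ) + 4) / (((q : ℝ) + 1) * ((q : ℝ) + 2) ^ 2) ≤ d q := by
  have h1 := r_upper (q + 1)
  rw [r_succ] at h1
  push_cast at h1
  have hq0 : (0 : ℝ) ≤ q := Nat.cast_nonneg q
  have h2 : r q ≤ ((q : ℝ) ^ 2 + 5 * q + 7) / (((q : ℝ) + 1) * ((q : ℝ) + 2) ^ 2) := by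
    rw [le_div_iff₀ (by positivity)]
    have h3 : ((q : ℝ) + 1) * r q ≤ 1 + ((q : ℝ) + 1 + 2) / ((q : ℝ) + 1 + 1) ^ 2 := by linarith
    have h4 := mul_le_mul_of_nonneg_right h3 (by positivity : (0 : ℝ) ≤ ((q : ℝ) + 2) ^ 2)
    have h5 : (1 + ((q : ℝ) + 1 + 2) / ((q : ℝ) + 1 + 1) ^ 2) * ((q : ℝ) + 2) ^ 2 =
        (q : ℝ) ^ 2 + 5 * q + 7 := by
      have : (q : ℝ) + 1 + 1 = q + 2 := by ring
      rw [this]
      field_simp
      ring
    rw [h5] at h4
    nlinarith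
  have h6 := mul_le_mul_of_nonneg_left h2 hq0
  unfold d
  have h7 : 1 - (q : ℝ) * (((q : ℝ) ^ 2 + 5 * q + 7) / (((q : ℝ) + 1) * ((q : ℝ) + 2) ^ 2)) =
      ((q : ℝ) + 4) / (((q : ℝ) + 1) * ((q : ℝ) + 2) ^ 2) := by
    field_simp
    ring
  linarith

lemma d_pos (q : ℕ) : 0 < d q := lt_of_lt_of_le (by positivity) (d_lower q)

lemma d_rec (q : ℕ) : (q : ℝ) * d (q + 1) = ((q : ℝ) + 1) ^ 2 * d q - 1 := by
  unfold d
  rw [r_succ]
  push_cast
  ring

lemma d_rec2 (q : ℕ) : d (q + 2) = ((q : ℝ) + 4) * d (q + 1) - ((q : ℝ) + 1) * d q := by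
  have h1 := d_rec q
  have h2 := d_rec (q + 1)
  push_cast at h2
  have h3 : ((q : ℝ) + 1) * d (q + 2) =
      ((q : ℝ) + 1) * (((q : ℝ) + 4) * d (q + 1) - ((q : ℝ) + 1) * d q) := by
    have : q + 1 + 1 = q + 2 := rfl
    rw [this] at h2
    linarith
  exact mul_left_cancel₀ (by positivity) h3

/-- `τ_{q+1}` -/
noncomputable def tau (q : ℕ) : ℝ := 1 - d (q + 1) / d q

lemma tau_zero : tau 0 = Real.exp 1 - 2 := by
  have h0 : d 0 = 1 := by simp [d]
  have h1 : r 1 = Real.exp 1 - 2 := by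
    have := r_succ 0
    rw [r_zero] at this
    simp only [Nat.cast_zero, zero_add, one_mul] at this
    rw [this]
    ring
  unfold tau
  rw [h0, zero_add]
  unfold d
  rw [h1]
  norm_num

lemma tau_rec (q : ℕ) : tau q = (2 + tau (q + 1)) / ((q : ℝ) + 1 + 2 + tau (q + 1)) := by
  have h1 := d_pos q
  have h2 := d_pos (q + 1)
  have h3 := d_rec2 q
  have e1 : q + 1 + 1 = q + 2 := rfl
  have h4 : (q : ℝ) + 1 + 2 + tau (q + 1) = ((q : ℝ) + 1) * d q / d (q + 1) := by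
    unfold tau
    rw [e1, h3]
    field_simp
    ring
  rw [h4]
  have h5 : 2 + tau (q + 1) = ((q : ℝ) + 1) * d q / d (q + 1) - ((q : ℝ) + 1) := by
    linarith
  rw [h5]
  unfold tau
  have hq : (0 : ℝ) < (q : ℝ) + 1 := by positivity
  field_simp

lemma tau_le (q : ℕ) : ((q : ℝ) + 1) * tau (q + 1) ≤ 3 := by
  have h1 := d_pos (q + 1)
  have h2 := d_lower (q + 1)
  have h3 := d_rec (q + 1)
  push_cast at h2 h3
  have h4 : ((q : ℝ) + 1) * tau (q + 1) =
      1 / d (q + 1) - (((q : ℝ) + 1 + 1) ^ 2 - ((q : ℝ) + 1)) := by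
    unfold tau
    have h5 : ((q : ℝ) + 1) * (d (q + 1 + 1) / d (q + 1)) =
        (((q : ℝ) + 1 + 1) ^ 2 * d (q + 1) - 1) / d (q + 1) := by
      rw [← h3]
      ring
    rw [mul_sub, h5]
    field_simp
    ring
  rw [h4]
  have h6 : 1 / d (q + 1) ≤ (((q : ℝ) + 1 + 1) * ((q : ℝ) + 1 + 2) ^ 2) / ((q : ℝ) + 1 + 4) := by
    have h7 := one_div_le_one_div_of_le (by positivity) h2
    rw [one_div_div] at h7
    exact h7
  have h8 : (((q : ℝ) + 1 + 1) * ((q : ℝ) + 1 + 2) ^ 2) / ((q : ℝ) + 1 + 4) ≤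
      3 + (((q : ℝ) + 1 + 1) ^ 2 - ((q : ℝ) + 1)) := by
    rw [div_le_iff₀ (by positivity)]
    have hq0 : (0 : ℝ) ≤ q := Nat.cast_nonneg q
    nlinarith
  linarith

lemma r_nonneg (q : ℕ) : 0 ≤ r q := by
  have h := Real.sum_le_exp_of_nonneg (x := 1) (by norm_num) (q + 1)
  simp only [one_pow] at h
  have hf : (0 : ℝ) < (q.factorial : ℝ) := by positivity
  unfold r
  exact mul_nonneg hf.le (by linarith)

lemma d_upper (q : ℕ) : d q ≤ 2 / (((q : ℝ) + 1) * ((q : ℝ) + 2)) := by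
  have h2 := r_nonneg (q + 2)
  have e2 : r (q + 2) = ((q : ℝ) + 1 + 1) * r (q + 1) - 1 := by
    have := r_succ (q + 1)
    push_cast at this
    exact this
  have e1 := r_succ q
  have hq0 : (0 : ℝ) ≤ q := Nat.cast_nonneg q
  rw [e2, e1] at h2
  unfold d
  rw [le_div_iff₀ (by positivity)]
  nlinarith [mul_nonneg hq0 h2]

lemma tau_nonneg (q : ℕ) : 0 ≤ tau q := by
  have h1 := d_pos q
  have h2 := d_pos (q + 1)
  have h3 := d_upper (q + 2)
  have h4 := d_lower (q + 1)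
  have hq0 : (0 : ℝ) ≤ q := Nat.cast_nonneg q
  push_cast at h3 h4
  have h5 : d (q + 2) ≤ 2 * d (q + 1) := by
    refine h3.trans (le_trans ?_ (mul_le_mul_of_nonneg_left h4 (by norm_num)))
    rw [← mul_div_assoc, div_le_div_iff₀ (by positivity) (by positivity)]
    have : 0 ≤ (q : ℝ) * q := mul_nonneg hq0 hq0
    have : 0 ≤ (q : ℝ) * q * q := mul_nonneg this hq0
    nlinarith
  have e1 : q + 1 + 1 = q + 2 := rfl
  have h6 : -1 ≤ tau (q + 1) := by
    unfold tau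
    rw [e1]
    have : d (q + 2) / d (q + 1) ≤ 2 := by
      rw [div_le_iff₀ h2]
      exact h5
    linarith
  rw [tau_rec]
  apply div_nonneg
  · linarith
  · linarith

lemma tau_le_two (q : ℕ) : (q : ℝ) * tau (q + 1) ≤ 2 := by
  have h1 := tau_rec (q + 1)
  have h2 := tau_le (q + 1)
  have h3 := tau_nonneg (q + 1 + 1)
  have hq0 : (0 : ℝ) ≤ q := Nat.cast_nonneg q
  push_cast at h1 h2
  rw [h1, ← mul_div_assoc, div_le_iff₀ (by positivity)]
  nlinarith

/-- the factors `T m 1` are at most `e - 2` in the limit -/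
lemma T_le : ∀ m q, T m (q + 1) ≤ tau q +
    (((q : ℝ) + 1) * ((q : ℝ) + 2)) / (((q : ℝ) + 1 + m) * ((q : ℝ) + 2 + m))
  | 0, q => by
    have h := tau_nonneg q
    have h1 : (((q : ℝ) + 1) * ((q : ℝ) + 2)) / (((q : ℝ) + 1 + ((0 : ℕ) : ℝ)) *
        ((q : ℝ) + 2 + ((0 : ℕ) : ℝ))) = 1 := by
      rw [Nat.cast_zero, add_zero, add_zero]
      exact div_self (by positivity)
    rw [h1]
    show (1 : ℝ) ≤ _
    linarith
  | m + 1, q => by
    have ih := T_le m (q + 1)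
    have hq0 : (0 : ℝ) ≤ q := Nat.cast_nonneg q
    have hm0 : (0 : ℝ) ≤ m := Nat.cast_nonneg m
    have hτ0 := tau_nonneg (q + 1)
    have hT0 := (T_bounds m (q + 1 + 1)).1
    have hg := tau_le_two q
    have hrec := tau_rec q
    push_cast at ih ⊢
    set t := T m (q + 1 + 1) with ht
    set s := tau (q + 1) with hs
    set P : ℝ := ((q : ℝ) + 2 + m) * ((q : ℝ) + 3 + m) with hP
    have hPpos : 0 < P := by positivity
    have eP1 : ((q : ℝ) + 1 + 1 + m) * ((q : ℝ) + 1 + 2 + m) = P := by rw [hP]; ring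
    have eP2 : ((q : ℝ) + 1 + (m + 1)) * ((q : ℝ) + 2 + (m + 1)) = P := by rw [hP]; ring
    rw [eP1] at ih
    rw [eP2]
    have e3 : ((q : ℝ) + 1 + 1) * ((q : ℝ) + 1 + 2) = ((q : ℝ) + 2) * ((q : ℝ) + 3) := by ring
    rw [e3] at ih
    set δ : ℝ := ((q : ℝ) + 2) * ((q : ℝ) + 3) / P with hδ
    have hδ0 : 0 ≤ δ := by positivity
    have hδP : δ * P = ((q : ℝ) + 2) * ((q : ℝ) + 3) := by
      rw [hδ]
      field_simp
    have key1 : ((q : ℝ) + 1) * δ / ((q : ℝ) + 3) = ((q : ℝ) + 1) * ((q : ℝ) + 2) / P := by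
      rw [hδ]
      field_simp
    have key2 : (q : ℝ) / ((q : ℝ) + 2) * δ ≤ ((q : ℝ) + 1) * ((q : ℝ) + 2) / P := by
      have : (q : ℝ) / ((q : ℝ) + 2) * δ = (q : ℝ) * ((q : ℝ) + 3) / P := by
        rw [hδ]
        field_simp
      rw [this]
      apply div_le_div_of_nonneg_right _ hPpos.le
      nlinarith
    show max ((2 + t) / (((q + 1 : ℕ) : ℝ) + 2 + t))
      ((((q + 1 : ℕ) : ℝ) - 1) / (((q + 1 : ℕ) : ℝ) + 1) * t) ≤ _
    push_cast
    apply max_le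
    · have hb : (2 + t) / ((q : ℝ) + 1 + 2 + t) ≤ tau q + ((q : ℝ) + 1) * δ / ((q : ℝ) + 3) := by
        rw [hrec]
        have hA : 0 < (q : ℝ) + 1 + 2 + t := by positivity
        have hB : 0 < (q : ℝ) + 1 + 2 + s := by positivity
        have hid : (2 + t) / ((q : ℝ) + 1 + 2 + t) - (2 + s) / ((q : ℝ) + 1 + 2 + s) =
            ((q : ℝ) + 1) * (t - s) / (((q : ℝ) + 1 + 2 + t) * ((q : ℝ) + 1 + 2 + s)) := by
          field_simp
          ring
        have hle : ((q : ℝ) + 1) * (t - s) / (((q : ℝ) + 1 + 2 + t) * ((q : ℝ) + 1 + 2 + s)) ≤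
            ((q : ℝ) + 1) * δ / ((q : ℝ) + 3) := by
          rw [div_le_div_iff₀ (by positivity) (by positivity)]
          have hts : t - s ≤ δ := by linarith
          have hprod : (q : ℝ) + 3 ≤ ((q : ℝ) + 1 + 2 + t) * ((q : ℝ) + 1 + 2 + s) := by
            nlinarith
          have h1 : ((q : ℝ) + 1) * (t - s) ≤ ((q : ℝ) + 1) * δ :=
            mul_le_mul_of_nonneg_left hts (by positivity)
          have h2 : ((q : ℝ) + 1) * (t - s) * ((q : ℝ) + 3) ≤
              ((q : ℝ) + 1) * δ * ((q : ℝ) + 3) :=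
            mul_le_mul_of_nonneg_right h1 (by positivity)
          have h3 : ((q : ℝ) + 1) * δ * ((q : ℝ) + 3) ≤
              ((q : ℝ) + 1) * δ * (((q : ℝ) + 1 + 2 + t) * ((q : ℝ) + 1 + 2 + s)) :=
            mul_le_mul_of_nonneg_left hprod (by positivity)
          linarith
        linarith
      rw [key1] at hb
      exact hb
    · have hb : (q : ℝ) / ((q : ℝ) + 2) * s ≤ tau q := by
        rw [hrec, div_mul_eq_mul_div, div_le_div_iff₀ (by positivity) (by positivity)]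
        have h0 : 0 ≤ (2 - (q : ℝ) * s) * ((q : ℝ) + 2 + s) :=
          mul_nonneg (by linarith) (by positivity)
        nlinarith
      have hc : (q : ℝ) / ((q : ℝ) + 2) * t ≤ (q : ℝ) / ((q : ℝ) + 2) * (s + δ) :=
        mul_le_mul_of_nonneg_left ih (by positivity)
      have e4 : ((q : ℝ) + 1 - 1) / ((q : ℝ) + 1 + 1) = (q : ℝ) / ((q : ℝ) + 2) := by
        congr 1 <;> ring
      rw [e4]
      calc (q : ℝ) / ((q : ℝ) + 2) * t ≤ (q : ℝ) / ((q : ℝ) + 2) * (s + δ) := hc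
        _ = (q : ℝ) / ((q : ℝ) + 2) * s + (q : ℝ) / ((q : ℝ) + 2) * δ := by ring
        _ ≤ _ := add_le_add hb key2

lemma T_one_le (m : ℕ) :
    T m 1 ≤ Real.exp 1 - 2 + 2 / (((m : ℝ) + 1) * ((m : ℝ) + 2)) := by
  have h := T_le m 0
  rw [tau_zero] at h
  simp only [Nat.cast_zero, zero_add, one_mul] at h
  have e : (2 : ℝ) / (((m : ℝ) + 1) * ((m : ℝ) + 2)) = 2 / ((1 + (m : ℝ)) * (2 + (m : ℝ))) := by
    congr 1
    ring
  rw [e]
  exact h

end Pool.Agent.Run7.h758.PX
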