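import Pool.Agent.Run7.h758.PX.Sym
import Pool.Agent.Run7.h758.PX.Tau

/-!
# The bounds for `X - Y`
-/

set_option autoImplicit false
set_option linter.unusedSectionVars false

open Finset
open scoped Classical

namespace Pool.Agent.Run7.h758.PX

section Core

variable {D : Type} [Fintype D] [Nonempty D] {N : ℕ} (x y : D → ℚ) (c : Fin N → ℚ)

noncomputable def w (p q : ℕ) : ℝ :=
  Real.log (Fintype.card D) - (z x y c p q + z x y c q p) / 2

theorem w_good (hinj : Function.Injective fun d => x d - y d) (hc : ∀ i, c i ≠ 0) :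
    Good N (w x y c) where
  symm := by
    intro p q
    unfold w
    ring
  A := by
    intro p q h
    have h1 := z_A x y c hinj hc p q h
    have h2 := z_A x y c hinj hc q p (by omega)
    unfold w
    linarith
  C := by
    intro p q h
    have h1 := z_XX x y c p q h
    have h2 := z_YY x y c q p (by omega)
    unfold w
    linarith
  M := by
    intro p q h
    have h1 := z_monoX x y c p q h
    have h2 := z_monoY x y c q p (by omega)
    unfold w
    linarith

theorem core (hinj : Function.Injective fun d => x d - y d) (hc : ∀ i, c i ≠ 0) (m : ℕ)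
    (hN : 2 * m + 3 ≤ N) (L : ℝ)
    (hL : ∀ i j : Fin N, i ≠ j → ∃ S : Finset ℚ,
      (∀ d e : D, c i * x d + c j * y e ∈ S) ∧ Real.log S.card ≤ L) :
    (3 + T m 1) * Real.log (Fintype.card D) ≤ 2 * (2 + T m 1) * L := by
  have h1 := w_one_one (w_good x y c hinj hc) m hN
  have h2 := z_one_one x y c (by omega) L hL
  have h3 := z_zero x y c
  have hT := T_bounds m 1
  unfold w at h1
  rw [h3] at h1
  have h4 := mul_le_mul_of_nonneg_left h2 (by linarith [hT.1] : 0 ≤ 2 * (2 + T m 1))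
  nlinarith

end Core

/-- the exponent for `2 m + 3` numbers -/
noncomputable def kap (m : ℕ) : ℝ :=
  2 * Real.exp 1 / (1 + Real.exp 1) + 1 / (((m : ℝ) + 1) * ((m : ℝ) + 2))

lemma kap_pos (m : ℕ) : 0 < kap m := by
  unfold kap
  positivity

lemma kap_spec (m : ℕ) : 2 * (2 + T m 1) ≤ kap m * (3 + T m 1) := by
  have hT := T_one_le m
  have hT0 := (T_bounds m 1).1
  have hE : 0 < Real.exp 1 := Real.exp_pos 1
  have hE1 : (1 : ℝ) < Real.exp 1 := by
    have := Real.add_one_lt_exp (x := 1) (by norm_num)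
    linarith
  set δ : ℝ := 1 / (((m : ℝ) + 1) * ((m : ℝ) + 2)) with hδ
  have hδ0 : 0 < δ := by positivity
  have h2δ : (2 : ℝ) / (((m : ℝ) + 1) * ((m : ℝ) + 2)) = 2 * δ := by
    rw [hδ]
    ring
  rw [h2δ] at hT
  have hk : kap m = 2 * Real.exp 1 / (1 + Real.exp 1) + δ := rfl
  rcases le_or_gt (kap m) 2 with h | h
  · have h1 : 2 * (2 + T m 1) - kap m * (3 + T m 1) ≤
        2 * (2 + (Real.exp 1 - 2 + 2 * δ)) - kap m * (3 + (Real.exp 1 - 2 + 2 * δ)) := by
      nlinarith [mul_le_mul_of_nonneg_left hT (by linarith : 0 ≤ 2 - kap m)]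
    have h2 : 2 * (2 + (Real.exp 1 - 2 + 2 * δ)) ≤ kap m * (3 + (Real.exp 1 - 2 + 2 * δ)) := by
      rw [hk]
      have h3 : (2 * Real.exp 1 / (1 + Real.exp 1)) * (1 + Real.exp 1) = 2 * Real.exp 1 := by
        field_simp
      have h4 : 1 ≤ 2 * Real.exp 1 / (1 + Real.exp 1) := by
        rw [le_div_iff₀ (by positivity)]
        linarith
      have h5 : 2 * δ ≤ 2 * Real.exp 1 / (1 + Real.exp 1) * (2 * δ) := by
        nlinarith
      nlinarith [mul_pos hδ0 hE, mul_pos hδ0 hδ0, mul_pos hδ0 (by linarith : 0 < Real.exp 1 - 1)]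
    linarith
  · nlinarith

theorem card_bound (m : ℕ) (c : Fin (2 * m + 3) → ℚ) (hc : ∀ i, c i ≠ 0) (X Y : Finset ℤ) (M : ℕ)
    (hM : ∀ i j, i ≠ j →
      ((X ×ˢ Y).image fun p : ℤ × ℤ => c i * (p.1 : ℚ) + c j * (p.2 : ℚ)).card ≤ M) :
    (((X ×ˢ Y).image fun p : ℤ × ℤ => (p.1 : ℚ) + (-1) * (p.2 : ℚ)).card : ℝ) ≤
      (M : ℝ) ^ kap m := by
  have hm := kap_spec m
  set E : Finset ℚ := (X ×ˢ Y).image fun p : ℤ × ℤ => (p.1 : ℚ) + (-1) * (p.2 : ℚ) with hE
  rcases E.eq_empty_or_nonempty with h0 | h0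
  · rw [h0, Finset.card_empty, Nat.cast_zero]
    positivity
  · have : Nonempty E := h0.to_subtype
    have hx : ∀ d : E, ∃ p : ℤ × ℤ, p ∈ X ×ˢ Y ∧ (p.1 : ℚ) + (-1) * (p.2 : ℚ) = d := by
      intro d
      obtain ⟨p, hp, h⟩ := Finset.mem_image.1 d.2
      exact ⟨p, hp, h⟩
    choose P hP1 hP2 using hx
    have hinj : Function.Injective fun d : E => ((P d).1 : ℚ) - ((P d).2 : ℚ) := by
      intro d d' h
      apply Subtype.ext
      rw [← hP2 d, ← hP2 d']
      dsimp only at h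
      linarith
    have hXY : (X ×ˢ Y).Nonempty := ⟨P (Classical.arbitrary E), hP1 _⟩
    have hpos : ∀ i j, 0 <
        ((X ×ˢ Y).image fun p : ℤ × ℤ => c i * (p.1 : ℚ) + c j * (p.2 : ℚ)).card :=
      fun i j => Finset.card_pos.2 (hXY.image _)
    have hL : ∀ i j : Fin (2 * m + 3), i ≠ j → ∃ S : Finset ℚ,
        (∀ d e : E, c i * ((P d).1 : ℚ) + c j * ((P e).2 : ℚ) ∈ S) ∧
          Real.log S.card ≤ Real.log M := by
      intro i j hij
      refine ⟨(X ×ˢ Y).image fun p : ℤ × ℤ => c i * (p.1 : ℚ) + c j * (p.2 : ℚ), ?_, ?_⟩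
      · intro d e
        rw [Finset.mem_image]
        refine ⟨((P d).1, (P e).2), ?_, rfl⟩
        have h1 := hP1 d
        have h2 := hP1 e
        rw [Finset.mem_product] at h1 h2 ⊢
        exact ⟨h1.1, h2.2⟩
      · apply Real.log_le_log
        · exact_mod_cast hpos i j
        · exact_mod_cast hM i j hij
    have h1 := core (fun d : E => ((P d).1 : ℚ)) (fun d : E => ((P d).2 : ℚ)) c hinj hc m le_rfl
      (Real.log M) hL
    have hT := T_bounds m 1
    have hMpos : 0 < M := by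
      have h01 : (⟨0, by omega⟩ : Fin (2 * m + 3)) ≠ ⟨1, by omega⟩ := by simp
      exact lt_of_lt_of_le (hpos _ _) (hM _ _ h01)
    have hlog : 0 ≤ Real.log M := Real.log_natCast_nonneg M
    have h2 : Real.log (Fintype.card E) ≤ kap m * Real.log M := by
      have h3 : (3 + T m 1) * Real.log (Fintype.card E) ≤ (3 + T m 1) * (kap m * Real.log M) := by
        have h4 := mul_le_mul_of_nonneg_right hm hlog
        linarith
      exact le_of_mul_le_mul_left h3 (by linarith [hT.1])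
    rw [Fintype.card_coe] at h2
    have hMr : (0 : ℝ) < M := by exact_mod_cast hMpos
    have hcard : (0 : ℝ) < E.card := by exact_mod_cast Finset.card_pos.2 h0
    rw [← Real.log_rpow hMr] at h2
    exact (Real.log_le_log_iff hcard (by positivity)).1 h2

theorem slopes_bound (m : ℕ) (c : Fin (2 * m + 3) → ℚ) (hc : ∀ i, c i ≠ 0) (S : Finset ℚ)
    (hS : ∀ i j, i ≠ j → c j / c i ∈ S) (X Y : Finset ℤ) :
    (((X ×ˢ Y).image fun p : ℤ × ℤ => (p.1 : ℚ) + (-1) * (p.2 : ℚ)).card : ℝ) ≤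
      ((S.sup fun r : ℚ => ((X ×ˢ Y).image fun p : ℤ × ℤ => (p.1 : ℚ) + r * (p.2 : ℚ)).card : ℕ) :
        ℝ) ^ kap m := by
  apply card_bound m c hc X Y
  intro i j hij
  have h1 : ((X ×ˢ Y).image fun p : ℤ × ℤ => c i * (p.1 : ℚ) + c j * (p.2 : ℚ)) =
      ((X ×ˢ Y).image fun p : ℤ × ℤ => (p.1 : ℚ) + (c j / c i) * (p.2 : ℚ)).image
        (fun t => c i * t) := by
    rw [Finset.image_image]
    apply Finset.image_congr
    intro p _
    have := hc i
    dsimp only [Function.comp]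
    field_simp
  rw [h1]
  refine Finset.card_image_le.trans ?_
  exact Finset.le_sup (f := fun r : ℚ =>
    ((X ×ˢ Y).image fun p : ℤ × ℤ => (p.1 : ℚ) + r * (p.2 : ℚ)).card) (hS i j hij)

theorem single (X Y : Finset ℤ) :
    (((X ×ˢ Y).image fun p : ℤ × ℤ => (p.1 : ℚ) + (-1) * (p.2 : ℚ)).card : ℝ) ≤
      (((X ×ˢ Y).image fun p : ℤ × ℤ => (p.1 : ℚ) + 1 * (p.2 : ℚ)).card : ℝ) ^
        (2 * Real.exp 1 / (1 + Real.exp 1)) := by
  set E : Finset ℚ := (X ×ˢ Y).image fun p : ℤ × ℤ => (p.1 : ℚ) + (-1) * (p.2 : ℚ) with hE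
  set F : Finset ℚ := (X ×ˢ Y).image fun p : ℤ × ℤ => (p.1 : ℚ) + 1 * (p.2 : ℚ) with hF
  have hm : ∀ m : ℕ, (E.card : ℝ) ≤ (F.card : ℝ) ^ kap m := by
    intro m
    apply card_bound m (fun _ => 1) (fun _ => one_ne_zero) X Y
    intro i j _
    apply le_of_eq
    rw [hF]
    congr 1
    apply Finset.image_congr
    intro p _
    simp
  rcases (X ×ˢ Y).eq_empty_or_nonempty with h0 | h0
  · rw [hE, h0]
    simp only [Finset.image_empty, Finset.card_empty, Nat.cast_zero]
    positivity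
  · have hEpos : (0 : ℝ) < E.card := by exact_mod_cast Finset.card_pos.2 (h0.image _)
    have hFpos : (0 : ℝ) < F.card := by exact_mod_cast Finset.card_pos.2 (h0.image _)
    have hlog : 0 ≤ Real.log F.card := Real.log_natCast_nonneg _
    rw [← Real.log_le_log_iff hEpos (by positivity), Real.log_rpow hFpos]
    apply le_of_forall_pos_le_add
    intro ε hε
    obtain ⟨m, hm1⟩ := exists_nat_gt (Real.log F.card / ε)
    have h1 := hm m
    rw [← Real.log_le_log_iff hEpos (by positivity), Real.log_rpow hFpos] at h1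
    refine h1.trans ?_
    unfold kap
    rw [add_mul]
    have h2 : 1 / (((m : ℝ) + 1) * ((m : ℝ) + 2)) * Real.log F.card ≤ ε := by
      rw [div_mul_eq_mul_div, one_mul, div_le_iff₀ (by positivity)]
      rw [div_lt_iff₀ hε] at hm1
      have hm0 : (0 : ℝ) ≤ m := Nat.cast_nonneg m
      have h3 : (m : ℝ) * ε ≤ ε * (((m : ℝ) + 1) * ((m : ℝ) + 2)) := by
        have : (m : ℝ) ≤ ((m : ℝ) + 1) * ((m : ℝ) + 2) := by nlinarith
        nlinarith
      linarith
    linarith

lemma kap_num : 2 * Real.exp 1 / (1 + Real.exp 1) < 1.46212 := by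
  rw [div_lt_iff₀ (by positivity)]
  have h := Real.exp_one_lt_d9
  nlinarith

end Pool.Agent.Run7.h758.PX
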