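import Pool.Agent.Run7.h758.PX.Abs

/-!
# Minkowski dimensions of sets which contain all progressions from `X` to `Z`
-/

set_option autoImplicit false

open Finset Filter Topology

namespace Pool.Agent.Run7.h758.PX

open Pool.Agent.W46.KK hiding lowerMinkowski
open Pool.Agent.V11295.ProgAny

/-- covering numbers -/
theorem cover_prod (n : ℕ) : ∃ C : ℝ, 0 < C ∧ ∀ (t : ℝ), 1 ≤ t →
    ∀ R X Z B : Set (EuclideanSpace ℝ (Fin n)), Bornology.IsBounded B →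
      (∀ x ∈ X, ∀ z ∈ Z, (1 / 2 : ℝ) • (x + z) ∈ B) →
      (∀ r ∈ R, ∃ x ∈ X, x + t • r ∈ Z) →
      ∀ δ : ℝ, 0 < δ → (coverNum R δ : ℝ) ≤ C * (coverNum B δ : ℝ) ^ kap0 := by
  classical
  set κ : ℝ := 9 ^ n with hκd
  have hκ : 0 < κ := by positivity
  refine ⟨((4 * (n + 1)) ^ n : ℕ) * κ ^ kap0, ?_, ?_⟩
  · have : 0 < (4 * (n + 1)) ^ n := by positivity
    have h1 : (0 : ℝ) < (((4 * (n + 1)) ^ n : ℕ) : ℝ) := by exact_mod_cast this
    have := Real.rpow_pos_of_pos hκ kap0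
    positivity
  intro t ht R X Z B hB hXZ hR δ hδ
  obtain ⟨U, hU1, hU2⟩ := exists_cover hB hδ
  set N : ℝ := (coverNum B δ : ℝ) with hN
  have hN0 : 0 ≤ N := Nat.cast_nonneg _
  set b : ℝ := (κ * N) ^ kap0 with hb
  have hb0 : 0 ≤ b := Real.rpow_nonneg (by positivity) kap0
  let P : ℕ → Prop := fun m => ∃ Q : Finset (EuclideanSpace ℝ (Fin n)), (∀ r ∈ Q, r ∈ R) ∧
    (∀ x ∈ Q, ∀ y ∈ Q, x ≠ y → ∃ i, 2 * δ ≤ |x i - y i|) ∧ Q.card = m
  have hPb : ∀ m, P m → m ≤ ⌊b⌋₊ := by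
    rintro m ⟨Q, h1, h2, rfl⟩
    have h3 := prod_any t ht X Z B hXZ hδ (Fin (coverNum B δ)) U hU1 hU2 Q
      (fun r hr => hR r (h1 r hr)) h2
    rw [Fintype.card_fin] at h3
    exact Nat.le_floor h3
  have hP0 : P 0 := ⟨∅, by simp, by simp, by simp⟩
  set m₀ := Nat.findGreatest P ⌊b⌋₊ with hm₀
  have hPm : P m₀ := Nat.findGreatest_spec (P := P) (Nat.zero_le _) hP0
  obtain ⟨Q, hQ1, hQ2, hQ3⟩ := hPm
  have hnear : ∀ r ∈ R, ∃ q ∈ Q, ∀ i, |r i - q i| < 2 * δ := by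
    intro r hr
    by_contra hcon
    push Not at hcon
    have hrQ : r ∉ Q := by
      intro hrQ
      obtain ⟨i, hi⟩ := hcon r hrQ
      rw [sub_self, abs_zero] at hi
      linarith
    have h1 : P (m₀ + 1) := by
      refine ⟨insert r Q, ?_, ?_, ?_⟩
      · intro x hx
        rw [Finset.mem_insert] at hx
        rcases hx with rfl | hx
        · exact hr
        · exact hQ1 x hx
      · intro x hx y hy hxy
        rw [Finset.mem_insert] at hx hy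
        rcases hx with rfl | hx
        · rcases hy with rfl | hy
          · exact absurd rfl hxy
          · exact hcon y hy
        · rcases hy with rfl | hy
          · obtain ⟨i, hi⟩ := hcon x hx
            refine ⟨i, ?_⟩
            rw [abs_sub_comm]
            exact hi
          · exact hQ2 x hx y hy hxy
      · rw [Finset.card_insert_of_notMem hrQ, hQ3]
    have h2 := Nat.le_findGreatest (hPb _ h1) h1
    omega
  have h1 := coverNum_le hδ Q hnear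
  have h2 : (m₀ : ℝ) ≤ b := by
    have h3 : m₀ ≤ ⌊b⌋₊ := Nat.findGreatest_le _
    exact le_trans (by exact_mod_cast h3) (Nat.floor_le hb0)
  calc (coverNum R δ : ℝ) ≤ ((Q.card * (4 * (n + 1)) ^ n : ℕ) : ℝ) := by exact_mod_cast h1
    _ = (m₀ : ℝ) * (((4 * (n + 1)) ^ n : ℕ) : ℝ) := by rw [hQ3, Nat.cast_mul]
    _ ≤ b * (((4 * (n + 1)) ^ n : ℕ) : ℝ) := mul_le_mul_of_nonneg_right h2 (Nat.cast_nonneg _)
    _ = (((4 * (n + 1)) ^ n : ℕ) : ℝ) * κ ^ kap0 * N ^ kap0 := by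
        rw [hb, Real.mul_rpow hκ.le hN0]
        ring

/-- all the consequences -/
theorem prod_main (n : ℕ) : ∃ C : ℝ, 0 < C ∧ ∀ k : ℕ, Odd k → 3 ≤ k →
    ∀ R X Z B : Set (EuclideanSpace ℝ (Fin n)), Bornology.IsBounded B →
      (∀ x ∈ X, ∀ z ∈ Z, ∀ j : ℕ, j < k → x + ((j : ℝ) / ((k : ℝ) - 1)) • (z - x) ∈ B) →
      (∀ r ∈ R, ∃ x ∈ X, x + ((k : ℝ) - 1) • r ∈ Z) →
      (∀ δ : ℝ, 0 < δ → (coverNum R δ : ℝ) ≤ C * (coverNum B δ : ℝ) ^ kap0) ∧
      (∀ s : ℝ, (s : EReal) ≤ upperMinkowski R → ((s / kap0 : ℝ) : EReal) ≤ upperMinkowski B) ∧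
      (∀ s : ℝ, (s : EReal) ≤ lowerMinkowski R →
        ((s / kap0 : ℝ) : EReal) ≤ lowerMinkowski B) := by
  obtain ⟨C, hC, h⟩ := cover_prod n
  refine ⟨C, hC, fun k hk hk3 R X Z B hB hXZ hR => ?_⟩
  obtain ⟨l, hl⟩ := hk
  have hl1 : 1 ≤ l := by omega
  have hk1 : (k : ℝ) - 1 = 2 * l := by
    rw [hl]
    push_cast
    ring
  have hl1' : (1 : ℝ) ≤ l := by exact_mod_cast hl1
  have hmid : ∀ x ∈ X, ∀ z ∈ Z, (1 / 2 : ℝ) • (x + z) ∈ B := by
    intro x hx z hz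
    have h1 := hXZ x hx z hz l (by omega)
    have h2 : (l : ℝ) / ((k : ℝ) - 1) = 1 / 2 := by
      rw [hk1]
      field_simp
    rw [h2] at h1
    have h3 : x + (1 / 2 : ℝ) • (z - x) = (1 / 2 : ℝ) • (x + z) := by
      module
    rw [h3] at h1
    exact h1
  have h1 := h ((k : ℝ) - 1) (by rw [hk1]; linarith) R X Z B hB hmid hR
  exact ⟨h1, fun s hs => upper_of kap0_pos hC h1 s hs, fun s hs => lower_of kap0_pos hC h1 s hs⟩

lemma kap0_num : 0.6839 < (1 + Real.exp 1) / (2 * Real.exp 1) := by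
  have hE : 0 < Real.exp 1 := Real.exp_pos 1
  rw [lt_div_iff₀ (by positivity)]
  have h := Real.exp_one_lt_d9
  nlinarith

end Pool.Agent.Run7.h758.PX
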