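import Mathlib

/-!
# The inequalities between the averaged entropies, solved

`w p q` is twice the logarithm of the number of differences minus the averaged entropies, divided by
two. It is symmetric, convex and decreasing in each variable and `w (p+1) q + w p (q+1) ≤ w p q`.
-/

set_option autoImplicit false

namespace Pool.Agent.Run7.h758.PX

structure Good (N : ℕ) (w : ℕ → ℕ → ℝ) : Prop where
  symm : ∀ p q, w p q = w q p
  A : ∀ p q, p + q + 1 ≤ N → w (p + 1) q + w p (q + 1) ≤ w p q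
  C : ∀ p q, p + q + 2 ≤ N → 2 * w (p + 1) q ≤ w (p + 2) q + w p q
  M : ∀ p q, p + q + 1 ≤ N → w (p + 1) q ≤ w p q

lemma chords (f : ℕ → ℝ) (K : ℕ) (hf : ∀ p, p ≤ K → 2 * f (p + 1) ≤ f (p + 2) + f p) :
    ∀ q, q ≤ K → f q - f 0 ≤ q * (f (q + 1) - f q) ∧
      (1 ≤ q → f q - f 1 ≤ ((q : ℝ) - 1) * (f (q + 1) - f q)) := by
  intro q
  induction q with
  | zero =>
    intro _
    refine ⟨by simp, fun h => by omega⟩
  | succ q ih =>
    intro hq
    obtain ⟨h1, h2⟩ := ih (by omega)
    have h3 := hf q (by omega)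
    have hq0 : (0 : ℝ) ≤ q := Nat.cast_nonneg q
    have h4 : f (q + 1) - f q ≤ f (q + 1 + 1) - f (q + 1) := by
      have : q + 1 + 1 = q + 2 := rfl
      rw [this]
      linarith
    constructor
    · push_cast
      nlinarith
    · intro _
      push_cast
      rcases Nat.eq_zero_or_pos q with h0 | h0
      · subst h0
        simp
      · have h5 := h2 h0
        have h6 : (1 : ℝ) ≤ q := by exact_mod_cast h0
        nlinarith

lemma chord_zero (f : ℕ → ℝ) (q : ℕ) (hf : ∀ p, p ≤ q → 2 * f (p + 1) ≤ f (p + 2) + f p) :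
    ((q : ℝ) + 2) * f q ≤ 2 * f 0 + q * f (q + 2) := by
  have h1 := (chords f q hf q le_rfl).1
  have h2 := hf q le_rfl
  have hq0 : (0 : ℝ) ≤ q := Nat.cast_nonneg q
  nlinarith

lemma chord_one (f : ℕ → ℝ) (q : ℕ) (h1q : 1 ≤ q)
    (hf : ∀ p, p ≤ q → 2 * f (p + 1) ≤ f (p + 2) + f p) :
    ((q : ℝ) + 1) * f q ≤ 2 * f 1 + ((q : ℝ) - 1) * f (q + 2) := by
  have h1 := (chords f q hf q le_rfl).2 h1q
  have h2 := hf q le_rfl
  have h6 : (1 : ℝ) ≤ q := by exact_mod_cast h1q
  nlinarith

/-- the factors -/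
noncomputable def T : ℕ → ℕ → ℝ
  | 0, _ => 1
  | m + 1, q => max ((2 + T m (q + 1)) / ((q : ℝ) + 2 + T m (q + 1)))
      (((q : ℝ) - 1) / ((q : ℝ) + 1) * T m (q + 1))

lemma T_bounds : ∀ m q, 0 ≤ T m q ∧ T m q ≤ 1
  | 0, _ => ⟨by simp [T], by simp [T]⟩
  | m + 1, q => by
    obtain ⟨h1, h2⟩ := T_bounds m (q + 1)
    have hq0 : (0 : ℝ) ≤ q := Nat.cast_nonneg q
    constructor
    · unfold T
      apply le_max_of_le_left
      positivity
    · unfold T
      apply max_le
      · rw [div_le_one (by positivity)]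
        linarith
      · have h3 : ((q : ℝ) - 1) / ((q : ℝ) + 1) ≤ 1 := by
          rw [div_le_one (by positivity)]
          linarith
        calc ((q : ℝ) - 1) / ((q : ℝ) + 1) * T m (q + 1) ≤ 1 * T m (q + 1) :=
              mul_le_mul_of_nonneg_right h3 h1
          _ ≤ 1 := by linarith

lemma step (q a s t b f : ℝ) (hq : 1 ≤ q) (ha : 0 ≤ a) (ht : 0 ≤ t) (hb : b ≤ t * s)
    (h0 : (q + 2) * f ≤ 2 * a + q * b) (h1 : (q + 1) * f ≤ 2 * (a - s) + (q - 1) * b)
    (h2 : f ≤ a - s) :
    f ≤ max ((2 + t) / (q + 2 + t)) ((q - 1) / (q + 1) * t) * a := by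
  have hd : 0 < q + 2 + t := by linarith
  have k1 : (2 + t) / (q + 2 + t) * a ≤ max ((2 + t) / (q + 2 + t)) ((q - 1) / (q + 1) * t) * a :=
    mul_le_mul_of_nonneg_right (le_max_left _ _) ha
  have k2 : (q - 1) / (q + 1) * t * a ≤
      max ((2 + t) / (q + 2 + t)) ((q - 1) / (q + 1) * t) * a :=
    mul_le_mul_of_nonneg_right (le_max_right _ _) ha
  rcases le_total s (a / (q + 2 + t)) with hs | hs
  · refine le_trans ?_ k1
    have h3 : q * b ≤ q * (t * (a / (q + 2 + t))) :=
      mul_le_mul_of_nonneg_left (hb.trans (mul_le_mul_of_nonneg_left hs ht)) (by linarith)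
    have h4 : (q + 2) * f ≤ (q + 2) * ((2 + t) / (q + 2 + t) * a) := by
      have h5 : 2 * a + q * (t * (a / (q + 2 + t))) = (q + 2) * ((2 + t) / (q + 2 + t) * a) := by
        field_simp
        ring
      linarith
    exact le_of_mul_le_mul_left h4 (by linarith)
  · rcases le_total ((q - 1) * t) 2 with h3 | h3
    · refine le_trans ?_ k1
      have h4 : (q - 1) * b ≤ (q - 1) * (t * s) := mul_le_mul_of_nonneg_left hb (by linarith)
      have h5 : (2 - (q - 1) * t) * (a / (q + 2 + t)) ≤ (2 - (q - 1) * t) * s :=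
        mul_le_mul_of_nonneg_left hs (by linarith)
      have h6 : (q + 1) * f ≤ (q + 1) * ((2 + t) / (q + 2 + t) * a) := by
        have h7 : 2 * a - (2 - (q - 1) * t) * (a / (q + 2 + t)) =
            (q + 1) * ((2 + t) / (q + 2 + t) * a) := by
          field_simp
          ring
        nlinarith
      exact le_of_mul_le_mul_left h6 (by linarith)
    · refine le_trans ?_ k2
      rcases le_total s a with h4 | h4
      · have h5 : (q - 1) * b ≤ (q - 1) * (t * s) := mul_le_mul_of_nonneg_left hb (by linarith)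
        have h6 : ((q - 1) * t - 2) * s ≤ ((q - 1) * t - 2) * a :=
          mul_le_mul_of_nonneg_left h4 (by linarith)
        have h7 : (q + 1) * f ≤ (q + 1) * ((q - 1) / (q + 1) * t * a) := by
          have h8 : (q + 1) * ((q - 1) / (q + 1) * t * a) = (q - 1) * t * a := by
            field_simp
          nlinarith
        exact le_of_mul_le_mul_left h7 (by linarith)
      · have h5 : 0 ≤ (q - 1) / (q + 1) * t * a := by
          have : 0 ≤ (q - 1) / (q + 1) := div_nonneg (by linarith) (by linarith)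
          positivity
        linarith

lemma row_mono {N : ℕ} {w : ℕ → ℕ → ℝ} (hw : Good N w) (r : ℕ) :
    ∀ p p', p ≤ p' → p' + r ≤ N → w p' r ≤ w p r := by
  intro p p' h
  induction p', h using Nat.le_induction with
  | base => intro _; exact le_rfl
  | succ k hk ih =>
    intro h'
    exact (hw.M k r (by omega)).trans (ih (by omega))

theorem chain {N : ℕ} {w : ℕ → ℕ → ℝ} (hw : Good N w) : ∀ m q, 1 ≤ q → 2 * (q + m) + 1 ≤ N →
    w q (q + 1) ≤ T m q * w 0 (q + 1) := by
  intro m
  induction m with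
  | zero =>
    intro q _ hN
    unfold T
    rw [one_mul]
    exact row_mono hw (q + 1) 0 q (Nat.zero_le q) (by omega)
  | succ m ih =>
    intro q hq hN
    have hT := T_bounds (m + 1) q
    have hm : w q (q + 1) ≤ w 0 (q + 1) :=
      row_mono hw (q + 1) 0 q (Nat.zero_le q) (by omega)
    rcases lt_or_ge (w 0 (q + 1)) 0 with ha | ha
    · nlinarith [hT.1, hT.2]
    · have hIH := ih (q + 1) (by omega) (by omega)
      have hT' := T_bounds m (q + 1)
      have hA := hw.A 0 (q + 1) (by omega)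
      have e1 : (0 : ℕ) + 1 = 1 := rfl
      rw [e1] at hA
      have hC : ∀ p, p ≤ q → 2 * (fun p => w p (q + 1)) (p + 1) ≤
          (fun p => w p (q + 1)) (p + 2) + (fun p => w p (q + 1)) p := by
        intro p hp
        exact hw.C p (q + 1) (by omega)
      have c0 := chord_zero (fun p => w p (q + 1)) q hC
      have c1 := chord_one (fun p => w p (q + 1)) q hq hC
      have hb : w (q + 2) (q + 1) ≤ T m (q + 1) * (w 0 (q + 1) - w 1 (q + 1)) := by
        rw [hw.symm (q + 2) (q + 1)]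
        refine hIH.trans ?_
        apply mul_le_mul_of_nonneg_left _ hT'.1
        linarith
      have h2 : w q (q + 1) ≤ w 0 (q + 1) - (w 0 (q + 1) - w 1 (q + 1)) := by
        have := row_mono hw (q + 1) 1 q hq (by omega)
        linarith
      have hs := step (q : ℝ) (w 0 (q + 1)) (w 0 (q + 1) - w 1 (q + 1)) (T m (q + 1))
        (w (q + 2) (q + 1)) (w q (q + 1)) (by exact_mod_cast hq) ha hT'.1 hb c0
        (by linarith) h2
      unfold T
      exact hs

theorem w_one_one {N : ℕ} {w : ℕ → ℕ → ℝ} (hw : Good N w) (m : ℕ) (hN : 2 * m + 3 ≤ N) :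
    2 * (2 + T m 1) * w 1 1 ≤ (1 + T m 1) * w 0 0 := by
  have hT := T_bounds m 1
  have h1 := chain hw m 1 le_rfl (by omega)
  have h2 := hw.A 0 1 (by omega)
  have h3 := hw.A 0 0 (by omega)
  have h4 := hw.C 0 1 (by omega)
  have e1 : (0 : ℕ) + 1 = 1 := rfl
  have e2 : (0 : ℕ) + 2 = 2 := rfl
  have e3 : (1 : ℕ) + 1 = 2 := rfl
  rw [e1, e3] at h2
  rw [e1] at h3
  rw [e1, e2] at h4
  rw [e3] at h1
  rw [hw.symm 1 0] at h3
  rw [hw.symm 2 1] at h4
  have h5 : T m 1 * w 0 2 ≤ T m 1 * (w 0 1 - w 1 1) :=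
    mul_le_mul_of_nonneg_left (by linarith) hT.1
  nlinarith [hT.1, hT.2]

end Pool.Agent.Run7.h758.PX
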