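import Pool.Agent.Run7.h758.PX.Ent

/-!
# Averaging over all orders of the dilates
-/

set_option autoImplicit false
set_option linter.unusedSectionVars false

open Finset
open scoped Classical

namespace Pool.Agent.Run7.h758.PX

open Pool.Agent.W904.AK

/-- `p` indices of role `1`, then `q` indices of role `2`, then role `0` -/
def R (N p q : ℕ) : Fin N → Fin 3 :=
  fun i => if i.1 < p then 1 else if i.1 < p + q then 2 else 0

section Z

variable {D : Type} [Fintype D] [Nonempty D] {N : ℕ} (x y : D → ℚ) (c : Fin N → ℚ)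

/-- the sum over all orders -/
noncomputable def Z (ρ : Fin N → Fin 3) : ℝ := ∑ σ : Equiv.Perm (Fin N), hh x y c (ρ ∘ σ)

lemma Z_comp (ρ : Fin N → Fin 3) (τ : Equiv.Perm (Fin N)) : Z x y c (ρ ∘ τ) = Z x y c ρ := by
  unfold Z
  exact Equiv.sum_comp (Equiv.mulLeft τ) (fun σ : Equiv.Perm (Fin N) => hh x y c (ρ ∘ σ))

lemma upd_comp (ρ : Fin N → Fin 3) (σ : Equiv.Perm (Fin N)) (i : Fin N) (a : Fin 3) :
    (Function.update ρ i a) ∘ σ = Function.update (ρ ∘ σ) (σ.symm i) a :=
  Function.update_comp_equiv ρ σ i a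

lemma Z_upd (ρ : Fin N → Fin 3) (τ : Equiv.Perm (Fin N)) (j : Fin N) (a : Fin 3) :
    Z x y c (Function.update (ρ ∘ τ) j a) = Z x y c (Function.update ρ (τ j) a) := by
  have h := upd_comp ρ τ (τ j) a
  rw [Equiv.symm_apply_apply] at h
  rw [← h, Z_comp]

theorem Z_ruzsa (hinj : Function.Injective fun d => x d - y d) (hc : ∀ i, c i ≠ 0)
    (ρ : Fin N → Fin 3) (i : Fin N) (hi : ρ i = 0) :
    (Fintype.card (Equiv.Perm (Fin N)) : ℝ) * Real.log (Fintype.card D) + Z x y c ρ ≤
      Z x y c (Function.update ρ i 1) + Z x y c (Function.update ρ i 2) := by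
  have h := Finset.sum_le_sum fun (σ : Equiv.Perm (Fin N)) (_ : σ ∈ Finset.univ) =>
    ruzsa x y c hinj hc (ρ ∘ σ) (σ.symm i) (by simp [hi])
  rw [Finset.sum_add_distrib, Finset.sum_add_distrib, Finset.sum_const, Finset.card_univ,
    nsmul_eq_mul] at h
  unfold Z
  simp only [upd_comp]
  exact h

theorem Z_sub (ρ : Fin N → Fin 3) (i j : Fin N) (hij : i ≠ j) (hi : ρ i = 0) (hj : ρ j = 0)
    (a b : Fin 3) :
    Z x y c (Function.update (Function.update ρ i a) j b) + Z x y c ρ ≤
      Z x y c (Function.update ρ i a) + Z x y c (Function.update ρ j b) := by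
  have h := Finset.sum_le_sum fun (σ : Equiv.Perm (Fin N)) (_ : σ ∈ Finset.univ) =>
    submodular x y c (ρ ∘ σ) (σ.symm i) (σ.symm j) (fun h => hij (σ.symm.injective h))
      (by simp [hi]) (by simp [hj]) a b
  rw [Finset.sum_add_distrib, Finset.sum_add_distrib] at h
  unfold Z
  simp only [upd_comp]
  exact h

theorem Z_mono (ρ : Fin N → Fin 3) (i : Fin N) (hi : ρ i = 0) (a : Fin 3) :
    Z x y c ρ ≤ Z x y c (Function.update ρ i a) := by
  have h := Finset.sum_le_sum fun (σ : Equiv.Perm (Fin N)) (_ : σ ∈ Finset.univ) =>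
    monotone x y c (ρ ∘ σ) (σ.symm i) (by simp [hi]) a
  unfold Z
  simp only [upd_comp]
  exact h

lemma swap_upd (ρ : Fin N → Fin 3) (i j : Fin N) (hi : ρ i = 0) (hj : ρ j = 0) (a : Fin 3) :
    Function.update ρ j a = (Function.update ρ i a) ∘ (Equiv.swap i j) := by
  funext k
  by_cases h1 : k = i
  · subst h1
    by_cases h2 : k = j
    · subst h2
      simp
    · rw [Function.update_of_ne h2, Function.comp_apply, Equiv.swap_apply_left,
        Function.update_of_ne (Ne.symm h2), hi, hj]
  · by_cases h2 : k = j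
    · subst h2
      simp
    · rw [Function.update_of_ne h2, Function.comp_apply, Equiv.swap_apply_of_ne_of_ne h1 h2,
        Function.update_of_ne h1]

lemma Z_swap (ρ : Fin N → Fin 3) (i j : Fin N) (hi : ρ i = 0) (hj : ρ j = 0) (a : Fin 3) :
    Z x y c (Function.update ρ j a) = Z x y c (Function.update ρ i a) := by
  rw [swap_upd ρ i j hi hj a, Z_comp]

lemma R_zero (p q : ℕ) (i : Fin N) (h : p + q ≤ i.1) : R N p q i = 0 := by
  unfold R
  rw [if_neg (by omega), if_neg (by omega)]

lemma R_two (p q : ℕ) (h : p + q < N) :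
    Function.update (R N p q) ⟨p + q, h⟩ 2 = R N p (q + 1) := by
  funext k
  by_cases hk : k = ⟨p + q, h⟩
  · subst hk
    rw [Function.update_self]
    unfold R
    rw [if_neg (by simp), if_pos (by simp)]
  · rw [Function.update_of_ne hk]
    have hk' : k.1 ≠ p + q := fun h' => hk (Fin.ext h')
    unfold R
    split_ifs <;> first | rfl | omega

lemma R_one (p q : ℕ) (h : p + q < N) :
    Function.update (R N p q) ⟨p + q, h⟩ 1 =
      R N (p + 1) q ∘ (Equiv.swap (⟨p, by omega⟩ : Fin N) ⟨p + q, h⟩) := by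
  funext k
  by_cases hk : k = ⟨p + q, h⟩
  · subst hk
    rw [Function.update_self, Function.comp_apply, Equiv.swap_apply_right]
    unfold R
    rw [if_pos (by simp)]
  · have hk' : k.1 ≠ p + q := fun h' => hk (Fin.ext h')
    rw [Function.update_of_ne hk, Function.comp_apply]
    by_cases h1 : k = ⟨p, by omega⟩
    · subst h1
      rw [Equiv.swap_apply_left]
      simp only at hk'
      unfold R
      simp only
      rw [if_neg (by omega), if_pos (by omega), if_neg (by omega), if_pos (by omega)]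
    · have h1' : k.1 ≠ p := fun h' => h1 (Fin.ext h')
      rw [Equiv.swap_apply_of_ne_of_ne h1 hk]
      unfold R
      split_ifs <;> first | rfl | omega

/-- the normalised average -/
noncomputable def z (p q : ℕ) : ℝ :=
  Z x y c (R N p q) / (Fintype.card (Equiv.Perm (Fin N)) : ℝ)

lemma ZR_one (p q : ℕ) (h : p + q < N) :
    Z x y c (Function.update (R N p q) ⟨p + q, h⟩ 1) = Z x y c (R N (p + 1) q) := by
  rw [R_one p q h, Z_comp]

lemma cpos : (0 : ℝ) < (Fintype.card (Equiv.Perm (Fin N)) : ℝ) := by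
  exact_mod_cast Fintype.card_pos

theorem z_A (hinj : Function.Injective fun d => x d - y d) (hc : ∀ i, c i ≠ 0)
    (p q : ℕ) (h : p + q + 1 ≤ N) :
    Real.log (Fintype.card D) + z x y c p q ≤ z x y c (p + 1) q + z x y c p (q + 1) := by
  have h1 := Z_ruzsa x y c hinj hc (R N p q) ⟨p + q, by omega⟩ (R_zero p q _ le_rfl)
  rw [ZR_one x y c p q (by omega), R_two p q (by omega)] at h1
  unfold z
  rw [← add_div, ← sub_nonneg]
  have hp := cpos (N := N)
  have : (Z x y c (R N (p + 1) q) + Z x y c (R N p (q + 1))) /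
      (Fintype.card (Equiv.Perm (Fin N)) : ℝ) -
      (Real.log (Fintype.card D) + Z x y c (R N p q) / (Fintype.card (Equiv.Perm (Fin N)) : ℝ)) =
      ((Z x y c (R N (p + 1) q) + Z x y c (R N p (q + 1))) -
        ((Fintype.card (Equiv.Perm (Fin N)) : ℝ) * Real.log (Fintype.card D) +
          Z x y c (R N p q))) / (Fintype.card (Equiv.Perm (Fin N)) : ℝ) := by
    field_simp
  rw [this]
  exact div_nonneg (by linarith) hp.le

theorem z_XX (p q : ℕ) (h : p + q + 2 ≤ N) :
    z x y c (p + 2) q + z x y c p q ≤ 2 * z x y c (p + 1) q := by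
  have hi := R_zero (N := N) p q ⟨p + q, by omega⟩ le_rfl
  have hj := R_zero (N := N) p q ⟨p + q + 1, by omega⟩ (by simp)
  have h1 := Z_sub x y c (R N p q) ⟨p + q, by omega⟩ ⟨p + q + 1, by omega⟩
    (by simp) hi hj 1 1
  rw [Z_swap x y c (R N p q) ⟨p + q, by omega⟩ ⟨p + q + 1, by omega⟩ hi hj,
    ZR_one x y c p q (by omega), R_one p q (by omega), Z_upd] at h1
  have h2 : (Equiv.swap (⟨p, by omega⟩ : Fin N) ⟨p + q, by omega⟩) ⟨p + q + 1, by omega⟩ =
      ⟨(p + 1) + q, by omega⟩ := by
    rw [Equiv.swap_apply_of_ne_of_ne]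
    · exact Fin.ext (by simp; omega)
    · intro h'
      have := congrArg Fin.val h'
      simp at this
      omega
    · intro h'
      have := congrArg Fin.val h'
      simp at this
  rw [h2, ZR_one x y c (p + 1) q (by omega)] at h1
  unfold z
  rw [← add_div, mul_div_assoc', div_le_div_iff_of_pos_right (cpos (N := N))]
  linarith

theorem z_YY (p q : ℕ) (h : p + q + 2 ≤ N) :
    z x y c p (q + 2) + z x y c p q ≤ 2 * z x y c p (q + 1) := by
  have hi := R_zero (N := N) p q ⟨p + q, by omega⟩ le_rfl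
  have hj := R_zero (N := N) p q ⟨p + q + 1, by omega⟩ (by simp)
  have h1 := Z_sub x y c (R N p q) ⟨p + q, by omega⟩ ⟨p + q + 1, by omega⟩
    (by simp) hi hj 2 2
  rw [Z_swap x y c (R N p q) ⟨p + q, by omega⟩ ⟨p + q + 1, by omega⟩ hi hj,
    R_two p q (by omega)] at h1
  have h2 : (⟨p + q + 1, by omega⟩ : Fin N) = ⟨p + (q + 1), by omega⟩ := Fin.ext (by simp; omega)
  rw [h2, R_two p (q + 1) (by omega)] at h1
  unfold z
  rw [← add_div, mul_div_assoc', div_le_div_iff_of_pos_right (cpos (N := N))]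
  have h3 : q + 1 + 1 = q + 2 := rfl
  rw [h3] at h1
  linarith

theorem z_monoX (p q : ℕ) (h : p + q + 1 ≤ N) : z x y c p q ≤ z x y c (p + 1) q := by
  have h1 := Z_mono x y c (R N p q) ⟨p + q, by omega⟩ (R_zero p q _ le_rfl) 1
  rw [ZR_one x y c p q (by omega)] at h1
  unfold z
  exact div_le_div_of_nonneg_right h1 (cpos (N := N)).le

theorem z_monoY (p q : ℕ) (h : p + q + 1 ≤ N) : z x y c p q ≤ z x y c p (q + 1) := by
  have h1 := Z_mono x y c (R N p q) ⟨p + q, by omega⟩ (R_zero p q _ le_rfl) 2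
  rw [R_two p q (by omega)] at h1
  unfold z
  exact div_le_div_of_nonneg_right h1 (cpos (N := N)).le

theorem z_zero : z x y c 0 0 = 0 := by
  unfold z Z
  have h1 : ∀ σ : Equiv.Perm (Fin N), hh x y c (R N 0 0 ∘ σ) = 0 := by
    intro σ
    have h2 : F x y c (R N 0 0 ∘ σ) = fun _ : Fin N → D => (0 : ℚ) := by
      funext ω
      unfold F
      apply Finset.sum_eq_zero
      intro i _
      simp [R, val]
    unfold hh
    rw [h2]
    exact H_const (unif_law (Fin N → D)) (0 : ℚ)
  simp [h1]

theorem z_one_one (hN : 2 ≤ N) (L : ℝ)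
    (hL : ∀ i j : Fin N, i ≠ j → ∃ S : Finset ℚ,
      (∀ d e : D, c i * x d + c j * y e ∈ S) ∧ Real.log S.card ≤ L) :
    z x y c 1 1 ≤ L := by
  have h1 : ∀ σ : Equiv.Perm (Fin N), hh x y c (R N 1 1 ∘ σ) ≤ L := by
    intro σ
    set i := σ.symm ⟨0, by omega⟩ with hi
    set j := σ.symm ⟨1, by omega⟩ with hj
    have hij : i ≠ j := by
      intro h
      have := σ.symm.injective h
      simp at this
    have h2 : R N 1 1 ∘ σ = Function.update (Function.update (fun _ => (0 : Fin 3)) i 1) j 2 := by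
      have e0 : R N 1 1 = Function.update (Function.update (fun _ => (0 : Fin 3))
          (⟨0, by omega⟩ : Fin N) 1) ⟨1, by omega⟩ 2 := by
        funext k
        by_cases k1 : k = ⟨1, by omega⟩
        · subst k1
          simp [R]
        · by_cases k0 : k = ⟨0, by omega⟩
          · subst k0
            rw [Function.update_of_ne k1]
            simp [R]
          · have k1' : k.1 ≠ 1 := fun h' => k1 (Fin.ext h')
            have k0' : k.1 ≠ 0 := fun h' => k0 (Fin.ext h')
            rw [Function.update_of_ne k1, Function.update_of_ne k0]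
            unfold R
            rw [if_neg (by omega), if_neg (by omega)]
      rw [e0, upd_comp, upd_comp]
      rfl
    obtain ⟨S, hS, hSL⟩ := hL i j hij
    refine le_trans ?_ hSL
    unfold hh
    refine H_le_log_card (unif_law (Fin N → D)) _ S ?_
    intro ω _
    have hj0 : Function.update (fun _ => (0 : Fin 3)) i 1 j = 0 := by
      rw [Function.update_of_ne hij.symm]
    rw [h2, F_role x y c _ j hj0, F_role x y c _ i rfl]
    have h3 : F x y c (fun _ => (0 : Fin 3)) ω = 0 := by
      unfold F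
      apply Finset.sum_eq_zero
      intro i _
      simp [val]
    rw [h3, zero_add]
    have v1 : ∀ d, val x y 1 d = x d := fun d => by simp [val]
    have v2 : ∀ d, val x y 2 d = y d := fun d => by simp [val]
    rw [v1, v2]
    exact hS _ _
  unfold z Z
  rw [div_le_iff₀ (cpos (N := N))]
  refine (Finset.sum_le_sum fun σ _ => h1 σ).trans ?_
  rw [Finset.sum_const, Finset.card_univ, nsmul_eq_mul, mul_comm]

end Z

end Pool.Agent.Run7.h758.PX
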